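import Mathlib
import Pool.Graph.R_pool_sql_team_seeded_843ab51a.V11279.QPc

set_option autoImplicit false

namespace Pool.Agent.KS6_17.QPC

open Set Filter Cardinal
open Pool.Agent.V11279.QP

/-- The covering number of the meagre ideal is the continuum, in topological form: fewer than
continuum many dense open subsets of the Baire space have a common point. -/
def CovMeagerEqContinuum : Prop :=
  ∀ 𝒟 : Set (Set (ℕ → ℕ)), #𝒟 < 𝔠 → (∀ D ∈ 𝒟, IsOpen D ∧ Dense D) → (⋂₀ 𝒟).Nonempty

/-- all finite intersections are infinite -/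
def SF (F : Set (Set ℕ)) : Prop := ∀ s : Set (Set ℕ), s ⊆ F → s.Finite → (⋂₀ s).Infinite

theorem SF.insert {F : Set (Set ℕ)} {B : Set ℕ}
    (h : ∀ s : Set (Set ℕ), s ⊆ F → s.Finite → (⋂₀ s ∩ B).Infinite) : SF (insert B F) := by
  intro t ht htf
  refine (h (t \ {B}) ?_ (htf.subset sdiff_subset)).mono ?_
  · rintro X ⟨hX, hXB⟩
    rcases ht hX with h1 | h1
    · exact absurd h1 hXB
    · exact h1
  · rintro x ⟨hx, hxB⟩ X hX
    by_cases hXB : X = B
    · rw [hXB]; exact hxB
    · exact hx X ⟨hX, hXB⟩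

theorem open_dense_of {D : Set (ℕ → ℕ)}
    (h1 : ∀ x ∈ D, ∃ n, ∀ y : ℕ → ℕ, (∀ m < n, y m = x m) → y ∈ D)
    (h2 : ∀ (x : ℕ → ℕ) (n : ℕ), ∃ y ∈ D, ∀ m < n, y m = x m) : IsOpen D ∧ Dense D := by
  constructor
  · rw [isOpen_pi_iff]
    intro x hx
    obtain ⟨n, hn⟩ := h1 x hx
    refine ⟨Finset.range n, fun m => {x m}, fun a _ => ⟨isOpen_discrete _, rfl⟩,
      fun y hy => hn y (fun m hm => ?_)⟩
    exact hy m (by simpa using hm)
  · rw [dense_iff_inter_open]
    rintro U hU ⟨x, hx⟩
    rw [isOpen_pi_iff] at hU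
    obtain ⟨I, u, hu, hsub⟩ := hU x hx
    obtain ⟨y, hyD, hy⟩ := h2 x (I.sup id + 1)
    refine ⟨y, hsub (fun a ha => ?_), hyD⟩
    rw [hy a (Nat.lt_succ_of_le (Finset.le_sup (f := id) ha))]
    exact (hu a ha).2

theorem exists_generic (hM : CovMeagerEqContinuum) {F : Set (Set ℕ)} (hF : #F < 𝔠)
    (D : Set ℕ → ℕ → Set (ℕ → ℕ))
    (hD : ∀ s : Set (Set ℕ), s ⊆ F → s.Finite → ∀ k, IsOpen (D (⋂₀ s) k) ∧ Dense (D (⋂₀ s) k)) :
    ∃ x, ∀ s : Set (Set ℕ), s ⊆ F → s.Finite → ∀ k, x ∈ D (⋂₀ s) k := by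
  classical
  have hfin : #(Finset F) < 𝔠 := by
    rcases finite_or_infinite F with hf | hf
    · exact (Cardinal.lt_aleph0_of_finite _).trans aleph0_lt_continuum
    · rw [mk_finset_of_infinite]; exact hF
  have hcard : #(Finset F × ℕ) < 𝔠 := by
    rw [mk_prod, lift_id, lift_id]
    exact mul_lt_of_lt aleph0_le_continuum hfin (by rw [mk_nat]; exact aleph0_lt_continuum)
  let E : Finset F × ℕ → Set (ℕ → ℕ) := fun p => D (⋂₀ (Subtype.val '' (p.1 : Set F))) p.2
  obtain ⟨x, hx⟩ := hM (range E) (mk_range_le.trans_lt hcard) (by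
    rintro _ ⟨p, rfl⟩
    exact hD _ (by rintro _ ⟨y, _, rfl⟩; exact y.2) (p.1.finite_toSet.image _) _)
  refine ⟨x, fun s hs hsf k => ?_⟩
  let u : Finset F := (hsf.preimage (f := (Subtype.val : F → Set ℕ))
    Subtype.val_injective.injOn).toFinset
  have hu : (Subtype.val '' (u : Set F)) = s := by
    simp only [u, Finite.coe_toFinset, Subtype.image_preimage_coe]
    exact inter_eq_right.2 hs
  have := hx (E (u, k)) ⟨(u, k), rfl⟩
  simp only [E, hu] at this
  exact this

/-- the transfinite construction of an ultrafilter meeting at most continuum many requirements -/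
theorem extension {K : Type} [Nonempty K] (hK : #K ≤ 𝔠) (P : K → Set ℕ → Prop)
    (hP : ∀ (κ : K) (F : Set (Set ℕ)), #F < 𝔠 → SF F → ∃ B, SF (insert B F) ∧ P κ B) :
    ∃ U : Ultrafilter ℕ, Nonprincipal U ∧ ∀ κ, ∃ B ∈ U, P κ B := by
  classical
  let T := Cardinal.continuum.{0}.ord.ToType
  have hT : #T = 𝔠 := mk_ord_toType _
  obtain ⟨φ⟩ : Nonempty (K ↪ T) := by
    rw [← hT] at hK
    exact hK
  let g : T → K := Function.invFun φ
  have hg : Function.Surjective g := Function.invFun_surjective φ.injective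
  let wf : WellFounded (fun a b : T => a < b) := wellFounded_lt
  let G : (i : T) → ((j : T) → j < i → Set ℕ) → Set ℕ := fun i rec =>
    Classical.epsilon (fun B => SF (insert B {X | ∃ (j : T) (hj : j < i), rec j hj = X}) ∧
      P (g i) B)
  let b : T → Set ℕ := wf.fix G
  have hb : ∀ i, b i = Classical.epsilon (fun B => SF (insert B (b '' Iio i)) ∧ P (g i) B) := by
    intro i
    show wf.fix G i = _
    rw [wf.fix_eq]
    have : {X | ∃ (j : T) (_ : j < i), b j = X} = b '' Iio i := by
      ext X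
      constructor
      · rintro ⟨j, hj, h⟩
        exact ⟨j, hj, h⟩
      · rintro ⟨j, hj, h⟩
        exact ⟨j, hj, h⟩
    show Classical.epsilon (fun B => SF (insert B {X | ∃ (j : T) (_ : j < i), b j = X}) ∧
      P (g i) B) = _
    rw [this]
  -- boundedness of finite subsets
  have hbd : ∀ L : Set T, (∀ j ∈ L, SF (b '' Iic j)) → SF (b '' L) := by
    intro L hL s hs hsf
    have hor : s = ∅ ∨ ∃ j ∈ L, s ⊆ b '' Iic j := by
      induction s, hsf using Set.Finite.induction_on with
      | empty => exact Or.inl rfl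
      | @insert X s hX hsf ih =>
        right
        obtain ⟨t, ht, rfl⟩ := hs (mem_insert _ _)
        rcases ih ((subset_insert _ _).trans hs) with h | ⟨j, hj, hsj⟩
        · refine ⟨t, ht, ?_⟩
          rw [h]
          rintro _ (rfl | h')
          · exact ⟨t, le_refl t, rfl⟩
          · exact absurd h' (notMem_empty _)
        · rcases le_total t j with htj | htj
          · refine ⟨j, hj, ?_⟩
            rintro _ (rfl | h')
            · exact ⟨t, htj, rfl⟩
            · exact hsj h'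
          · refine ⟨t, ht, ?_⟩
            rintro _ (rfl | h')
            · exact ⟨t, le_refl t, rfl⟩
            · exact (image_mono (Iic_subset_Iic.2 htj)) (hsj h')
    rcases hor with h | ⟨j, hj, hsj⟩
    · rw [h, sInter_empty]
      exact infinite_univ
    · exact hL j hj s hsj hsf
  have hIic : ∀ i, insert (b i) (b '' Iio i) = b '' Iic i := by
    intro i
    rw [← image_insert_eq, Iio_insert]
  have key : ∀ i, SF (b '' Iic i) ∧ P (g i) (b i) := by
    intro i
    induction i using wf.induction with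
    | _ i ih =>
      have hSF : SF (b '' Iio i) := hbd _ (fun j hj => (ih j hj).1)
      have hc : #(b '' Iio i : Set (Set ℕ)) < 𝔠 := mk_image_le.trans_lt (mk_Iio_toType_ord_lt i)
      obtain ⟨B, hB⟩ := hP (g i) (b '' Iio i) hc hSF
      have := Classical.epsilon_spec (p := fun B => SF (insert B (b '' Iio i)) ∧ P (g i) B)
        ⟨B, hB⟩
      rw [← hb i, hIic i] at this
      exact this
  have hall : SF (b '' univ) := hbd _ (fun j _ => (key j).1)
  have hne : (generate (b '' univ) ⊓ cofinite).NeBot := by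
    rw [inf_neBot_iff]
    intro X hX Y hY
    obtain ⟨t, ht, htf, htX⟩ := mem_generate_iff.1 hX
    have h1 := (hall t ht htf).sdiff (mem_cofinite.1 hY)
    obtain ⟨x, hx1, hx2⟩ := h1.nonempty
    exact ⟨x, htX hx1, not_not.1 hx2⟩
  refine ⟨Ultrafilter.of (generate (b '' univ) ⊓ cofinite), ?_, ?_⟩
  · intro n hn
    have h1 : ({n} : Set ℕ)ᶜ ∈ Ultrafilter.of (generate (b '' univ) ⊓ cofinite) :=
      Ultrafilter.of_le _ (mem_inf_of_right (by
        rw [mem_cofinite, compl_compl]
        exact finite_singleton n))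
    exact (Ultrafilter.compl_mem_iff_notMem.1 h1) hn
  · intro κ
    obtain ⟨i, rfl⟩ := hg κ
    exact ⟨b i, Ultrafilter.of_le _ (mem_inf_of_left (mem_generate_of_mem ⟨i, trivial, rfl⟩)),
      (key i).2⟩

end Pool.Agent.KS6_17.QPC
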