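import Mathlib
import Pool.Agent.KS6_17.QPC.Ext

set_option autoImplicit false

namespace Pool.Agent.KS6_17.QPC

open Set Filter Cardinal
open Pool.Agent.V11279.QP

/-- one step for selectivity -/
theorem step_selective (hM : CovMeagerEqContinuum) {F : Set (Set ℕ)} (hF : #F < 𝔠) (hS : SF F)
    (f : ℕ → ℕ) :
    ∃ B, SF (insert B F) ∧ ((∃ c, ∀ x ∈ B, f x = c) ∨ InjOn f B) := by
  classical
  by_cases hc : ∃ c, ∀ s : Set (Set ℕ), s ⊆ F → s.Finite → (⋂₀ s ∩ f ⁻¹' {c}).Infinite
  · obtain ⟨c, hc⟩ := hc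
    exact ⟨f ⁻¹' {c}, SF.insert hc, Or.inl ⟨c, fun x hx => hx⟩⟩
  · push Not at hc
    choose t ht1 ht2 ht3 using hc
    have hinf : ∀ s : Set (Set ℕ), s ⊆ F → s.Finite → (f '' ⋂₀ s).Infinite := by
      intro s hs hsf hfin
      have hsub : s ∪ ⋃ c ∈ f '' ⋂₀ s, t c ⊆ F :=
        union_subset hs (iUnion₂_subset (fun c _ => ht1 c))
      have hff : (s ∪ ⋃ c ∈ f '' ⋂₀ s, t c).Finite :=
        hsf.union (hfin.biUnion (fun c _ => ht2 c))
      refine hS _ hsub hff ?_
      refine (hfin.biUnion (fun c _ => ht3 c)).subset ?_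
      intro x hx
      have hxs : x ∈ ⋂₀ s := fun X hX => hx X (Or.inl hX)
      simp only [mem_iUnion]
      refine ⟨f x, ⟨x, hxs, rfl⟩, fun X hX => hx X (Or.inr ?_), rfl⟩
      simp only [mem_iUnion]
      exact ⟨f x, ⟨x, hxs, rfl⟩, hX⟩
    obtain ⟨x, hx⟩ := exists_generic hM hF
      (fun X k => {x : ℕ → ℕ | ∃ n, x n ∈ X ∧ k ≤ x n ∧ ∀ m < n, f (x m) ≠ f (x n)}) (by
        intro s hs hsf k
        apply open_dense_of
        · rintro x ⟨n, h1, h2, h3⟩
          refine ⟨n + 1, fun y hy => ⟨n, ?_, ?_, ?_⟩⟩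
          · rw [hy n (by omega)]; exact h1
          · rw [hy n (by omega)]; exact h2
          · intro m hm
            rw [hy n (by omega), hy m (by omega)]
            exact h3 m hm
        · intro x n
          have h1 : ((f '' ⋂₀ s) \ (f '' Iio k ∪ (fun m => f (x m)) '' Iio n)).Infinite :=
            (hinf s hs hsf).sdiff (((finite_Iio k).image _).union ((finite_Iio n).image _))
          obtain ⟨c, ⟨b, hb, rfl⟩, hcb⟩ := h1.nonempty
          refine ⟨fun m => if m < n then x m else b, ⟨n, ?_, ?_, ?_⟩, ?_⟩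
          · simp only [lt_irrefl, if_false]; exact hb
          · simp only [lt_irrefl, if_false]
            by_contra hcon
            exact hcb (Or.inl ⟨b, not_le.1 hcon, rfl⟩)
          · intro m hm
            simp only [lt_irrefl, if_false, if_pos hm]
            intro heq
            exact hcb (Or.inr ⟨m, hm, heq⟩)
          · intro m hm
            simp only [if_pos hm])
    refine ⟨{b | ∃ n, x n = b ∧ ∀ m < n, f (x m) ≠ f (x n)}, SF.insert ?_, Or.inr ?_⟩
    · intro s hs hsf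
      apply infinite_of_forall_exists_gt
      intro k
      obtain ⟨n, h1, h2, h3⟩ := hx s hs hsf (k + 1)
      exact ⟨x n, ⟨h1, n, rfl, h3⟩, by omega⟩
    · rintro _ ⟨n, rfl, hn⟩ _ ⟨m, rfl, hm⟩ heq
      rcases lt_trichotomy n m with h | h | h
      · exact absurd heq (hm n h)
      · rw [h]
      · exact absurd heq.symm (hn m h)

/-- one step for leaving a given ultrafilter -/
theorem step_avoid (hM : CovMeagerEqContinuum) {F : Set (Set ℕ)} (hF : #F < 𝔠) (hS : SF F)
    (W : Ultrafilter ℕ) :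
    ∃ B, SF (insert B F) ∧ B ∉ W := by
  classical
  obtain ⟨x, hx⟩ := exists_generic hM hF
    (fun X k => {x : ℕ → ℕ | (∃ n ∈ X, k ≤ n ∧ x n = 0) ∧ ∃ n ∈ X, k ≤ n ∧ x n = 1}) (by
      intro s hs hsf k
      apply open_dense_of
      · rintro x ⟨⟨n, h1, h2, h3⟩, ⟨m, h4, h5, h6⟩⟩
        refine ⟨n + m + 1, fun y hy => ⟨⟨n, h1, h2, ?_⟩, ⟨m, h4, h5, ?_⟩⟩⟩
        · rw [hy n (by omega)]; exact h3
        · rw [hy m (by omega)]; exact h6
      · intro x n
        obtain ⟨a, ha, hna⟩ := (hS s hs hsf).exists_gt (n + k)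
        obtain ⟨b, hb, hab⟩ := (hS s hs hsf).exists_gt a
        refine ⟨fun m => if m < n then x m else if m = a then 0 else 1,
          ⟨⟨a, ha, by omega, ?_⟩, ⟨b, hb, by omega, ?_⟩⟩, ?_⟩
        · simp only [if_neg (show ¬ a < n by omega), if_true]
        · simp only [if_neg (show ¬ b < n by omega), if_neg (show ¬ b = a by omega)]
        · intro m hm
          simp only [if_pos hm])
  by_cases hA : {n | x n = 0} ∈ W
  · refine ⟨{n | x n = 0}ᶜ, SF.insert ?_, Ultrafilter.compl_notMem_iff.2 hA⟩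
    intro s hs hsf
    apply infinite_of_forall_exists_gt
    intro k
    obtain ⟨-, ⟨n, h1, h2, h3⟩⟩ := hx s hs hsf (k + 1)
    refine ⟨n, ⟨h1, ?_⟩, by omega⟩
    show ¬ x n = 0
    omega
  · refine ⟨{n | x n = 0}, SF.insert ?_, hA⟩
    intro s hs hsf
    apply infinite_of_forall_exists_gt
    intro k
    obtain ⟨⟨n, h1, h2, h3⟩, -⟩ := hx s hs hsf (k + 1)
    exact ⟨n, ⟨h1, h3⟩, by omega⟩

/-- Under `cov(M) = 𝔠`, for every family of at most continuum many ultrafilters there is a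
selective ultrafilter isomorphic to no member of the family. -/
theorem exists_selective_avoiding (hM : CovMeagerEqContinuum) (S : Set (Ultrafilter ℕ))
    (hS : #S ≤ 𝔠) : ∃ U : Ultrafilter ℕ, IsSelective U ∧ ∀ V ∈ S, ¬ Isomorphic V U := by
  classical
  let P : (ℕ → ℕ) × Option S → Set ℕ → Prop := fun κ B =>
    match κ.2 with
    | none => (∃ c, ∀ x ∈ B, κ.1 x = c) ∨ InjOn κ.1 B
    | some V => B ∉ V.1.map κ.1
  have hK : #((ℕ → ℕ) × Option S) ≤ 𝔠 := by
    rw [mk_prod, lift_id, lift_id]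
    have h1 : #(ℕ → ℕ) = 𝔠 := by simp
    have h2 : #(Option S) ≤ 𝔠 := by
      rw [mk_option]
      exact add_le_of_le aleph0_le_continuum hS (one_le_aleph0.trans aleph0_le_continuum)
    rw [h1]
    exact mul_le_of_le aleph0_le_continuum le_rfl h2
  obtain ⟨U, hU, hUP⟩ := extension hK P (by
    rintro ⟨f, o⟩ F hF hSF
    cases o with
    | none => exact step_selective hM hF hSF f
    | some V => exact step_avoid hM hF hSF (V.1.map f))
  refine ⟨U, ⟨hU, fun f => ?_⟩, ?_⟩
  · obtain ⟨B, hB, h⟩ := hUP (f, none)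
    rcases h with ⟨c, hc⟩ | h
    · exact Or.inl ⟨B, hB, c, hc⟩
    · exact Or.inr ⟨B, hB, h⟩
  · rintro V hV ⟨e, he⟩
    obtain ⟨B, hB, h⟩ := hUP (e, some ⟨V, hV⟩)
    have h' : B ∉ V.map e := h
    rw [he] at h'
    exact h' hB

theorem infinitelyManySelectives (hM : CovMeagerEqContinuum) : InfinitelyManySelectives := by
  classical
  obtain ⟨Y, h1, h2⟩ := exists_seq_of_forall_finset_exists (fun U => IsSelective U)
    (fun V U => ¬ Isomorphic V U) (by
      intro s _
      obtain ⟨U, hU, h⟩ := exists_selective_avoiding hM (s : Set (Ultrafilter ℕ))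
        ((Cardinal.lt_aleph0_of_finite _).le.trans aleph0_le_continuum)
      exact ⟨U, hU, fun V hV => h V hV⟩)
  refine ⟨Y, h1, fun n m hnm h => ?_⟩
  rcases lt_or_gt_of_ne hnm with hlt | hlt
  · exact h2 n m hlt h
  · exact h2 m n hlt h.symm

end Pool.Agent.KS6_17.QPC
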