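import Mathlib
import Pool.Agent.KS6_17.QPC.Sel

set_option autoImplicit false

namespace Pool.Agent.KS6_17.QPC

open Set Filter Cardinal
open Pool.Agent.V11279.QP

theorem covMeager_of_CH (hCH : Cardinal.aleph.{0} 1 = 𝔠) : CovMeagerEqContinuum := by
  intro 𝒟 h𝒟 hD
  rw [← hCH] at h𝒟
  have hc : 𝒟.Countable := Cardinal.countable_iff_lt_aleph_one _ |>.2 h𝒟
  have := dense_sInter_of_isOpen (fun D hD' => (hD D hD').1) hc (fun D hD' => (hD D hD').2)
  exact this.nonempty

theorem fubini_map_fst (W : Ultrafilter ℕ) (Y : ℕ → Ultrafilter ℕ) :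
    (fubini W Y).map (fun k => (Nat.unpair k).1) = W := by
  ext A
  rw [Ultrafilter.mem_map, mem_fubini]
  have : {n | {a | Nat.pair n a ∈ (fun k => (Nat.unpair k).1) ⁻¹' A} ∈ Y n} = A := by
    ext n
    simp only [mem_setOf_eq, mem_preimage, Nat.unpair_pair]
    by_cases hn : n ∈ A
    · simp only [hn, setOf_true, iff_true]
      exact univ_mem
    · simp [hn]
  rw [this]

/-- Under `cov(M) = 𝔠` the counterexamples cannot be exhausted by continuum many ultrafilters. -/
theorem exists_counterexample (hM : CovMeagerEqContinuum) (S : Set (Ultrafilter ℕ))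
    (hS : #S ≤ 𝔠) : ∃ V : Ultrafilter ℕ, IsIterate 1 V ∧ IsQPoint V ∧ ¬ IsSelective V ∧
      ∀ Z ∈ S, ∀ f : ℕ → ℕ, Z.map f ≠ V := by
  classical
  obtain ⟨Y, hY, hne⟩ := infinitelyManySelectives hM
  let S' : Set (Ultrafilter ℕ) := range (fun p : S × (ℕ → ℕ) => p.1.1.map p.2)
  have hS' : #S' ≤ 𝔠 := by
    refine mk_range_le.trans ?_
    rw [mk_prod, lift_id, lift_id]
    exact mul_le_of_le aleph0_le_continuum hS (le_of_eq (by simp))
  obtain ⟨W, hW, hWS⟩ := exists_selective_avoiding hM S' hS'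
  refine ⟨fubini W Y, IsIterate.sum 0 _ _ (isSelective_pPoint hW)
    (fun n => IsIterate.base _ (isSelective_pPoint (hY n))), fubini_qPoint hY hne,
    fubini_not_selective hW.1 (fun n => (hY n).1), ?_⟩
  intro Z hZ f hf
  refine hWS W ⟨(⟨Z, hZ⟩, (fun k => (Nat.unpair k).1) ∘ f), ?_⟩ (Isomorphic.refl W)
  show Z.map ((fun k => (Nat.unpair k).1) ∘ f) = W
  rw [← Ultrafilter.map_map, hf, fubini_map_fst]

end Pool.Agent.KS6_17.QPC
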